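import Pool.Agent.EPT27.Good

/-! Back-and-forth equivalence from good maps (a Gaifman type theorem in graphs of large girth). -/

namespace Pool.Agent.EPT27

open SimpleGraph Classical

variable {V : Type*} {C : Type}

/-- Back-and-forth equivalence of tuples in a coloured graph. -/
def EqF (G : SimpleGraph V) (col : V → C) : ℕ → (k : ℕ) → (Fin k → V) → (Fin k → V) → Prop
  | 0, k, a, b => (∀ i j : Fin k, a i = a j ↔ b i = b j) ∧
      (∀ i j : Fin k, G.Adj (a i) (a j) ↔ G.Adj (b i) (b j)) ∧ ∀ i : Fin k, col (a i) = col (b i)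
  | q + 1, k, a, b =>
      (∀ x, ∃ y, EqF G col q (k + 1) (Fin.snoc a x : Fin (k + 1) → V) (Fin.snoc b y : Fin (k + 1) → V)) ∧
      (∀ y, ∃ x, EqF G col q (k + 1) (Fin.snoc a x : Fin (k + 1) → V) (Fin.snoc b y : Fin (k + 1) → V))

variable [Fintype V] [Fintype C] {G : SimpleGraph V} {col : V → C}

theorem cnt_S {S : Finset (V × V)} (f : V × V → V) (hf : ∀ p ∈ S, ∀ q ∈ S, f p = f q → p = q)
    (P : V → Prop) : cnt (fun c => P c ∧ ∃ q ∈ S, f q = c) = (S.filter (fun q => P (f q))).card := by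
  unfold cnt
  rw [← Finset.card_image_of_injOn (s := S.filter (fun q => P (f q))) (f := f)]
  · congr 1
    ext c
    simp only [Finset.mem_filter, Finset.mem_univ, true_and, Finset.mem_image]
    constructor
    · rintro ⟨h1, q, hq, rfl⟩
      exact ⟨q, ⟨hq, h1⟩, rfl⟩
    · rintro ⟨q, ⟨hq, h1⟩, rfl⟩
      exact ⟨h1, q, hq, rfl⟩
  · intro p hp q hq hpq
    simp only [Finset.coe_filter, Set.mem_ofPred_eq] at hp hq
    exact hf p hp.1 q hq.1 hpq

theorem Good.type_eq_aux {n ρ : ℕ} {S : Finset (V × V)} (h : Good G col n ρ S) (m : ℕ) (hm : m ≤ n) :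
    ∀ p ∈ S, ∀ b : Option (V × V), (∀ q, b = some q → q ∈ S) →
      T G col m (b.map Prod.fst) p.1 = T G col m (b.map Prod.snd) p.2 := by
  induction m with
  | zero =>
    intro p hp b _
    exact h.hcol p hp
  | succ m ih =>
    intro p hp b hb
    rw [T_succ_iff]
    refine ⟨h.hcol p hp, ?_⟩
    intro τ
    have s1 := cnt_split (fun c => G.Adj p.1 c ∧ some c ≠ b.map Prod.fst ∧ T G col m (some p.1) c = τ)
      (fun c => ∃ q ∈ S, q.1 = c)
    have s2 := cnt_split (fun c => G.Adj p.2 c ∧ some c ≠ b.map Prod.snd ∧ T G col m (some p.2) c = τ)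
      (fun c => ∃ q ∈ S, q.2 = c)
    have e1 : cnt (fun c => (G.Adj p.1 c ∧ some c ≠ b.map Prod.fst ∧ T G col m (some p.1) c = τ) ∧
        ¬ ∃ q ∈ S, q.1 = c) = cnt (fun c => (G.Adj p.1 c ∧ ∀ q ∈ S, q.1 ≠ c) ∧ T G col m (some p.1) c = τ) := by
      apply cnt_congr
      intro c
      constructor
      · rintro ⟨⟨a1, a2, a3⟩, a4⟩
        exact ⟨⟨a1, fun q hq hc => a4 ⟨q, hq, hc⟩⟩, a3⟩
      · rintro ⟨⟨a1, a2⟩, a3⟩
        refine ⟨⟨a1, ?_, a3⟩, fun ⟨q, hq, hc⟩ => a2 q hq hc⟩
        intro hc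
        cases b with
        | none => simp at hc
        | some q => exact a2 q (hb q rfl) (by simpa using hc.symm)
    have e2 : cnt (fun c => (G.Adj p.2 c ∧ some c ≠ b.map Prod.snd ∧ T G col m (some p.2) c = τ) ∧
        ¬ ∃ q ∈ S, q.2 = c) = cnt (fun c => (G.Adj p.2 c ∧ ∀ q ∈ S, q.2 ≠ c) ∧ T G col m (some p.2) c = τ) := by
      apply cnt_congr
      intro c
      constructor
      · rintro ⟨⟨a1, a2, a3⟩, a4⟩
        exact ⟨⟨a1, fun q hq hc => a4 ⟨q, hq, hc⟩⟩, a3⟩
      · rintro ⟨⟨a1, a2⟩, a3⟩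
        refine ⟨⟨a1, ?_, a3⟩, fun ⟨q, hq, hc⟩ => a2 q hq hc⟩
        intro hc
        cases b with
        | none => simp at hc
        | some q => exact a2 q (hb q rfl) (by simpa using hc.symm)
    have h3 : min n (cnt (fun c => (G.Adj p.1 c ∧ ∀ q ∈ S, q.1 ≠ c) ∧ T G col m (some p.1) c = τ)) =
        min n (cnt (fun c => (G.Adj p.2 c ∧ ∀ q ∈ S, q.2 ≠ c) ∧ T G col m (some p.2) c = τ)) :=
      cnt_down_le (by omega : m ≤ n) _ _ (h.side p hp) τ
    have h4 : cnt (fun c => (G.Adj p.1 c ∧ some c ≠ b.map Prod.fst ∧ T G col m (some p.1) c = τ) ∧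
        ∃ q ∈ S, q.1 = c) = cnt (fun c => (G.Adj p.2 c ∧ some c ≠ b.map Prod.snd ∧
          T G col m (some p.2) c = τ) ∧ ∃ q ∈ S, q.2 = c) := by
      rw [cnt_S Prod.fst h.s1.inj, cnt_S Prod.snd h.s2.inj]
      congr 1
      ext q
      simp only [Finset.mem_filter]
      refine and_congr_right (fun hq => ?_)
      have i1 : G.Adj p.1 q.1 ↔ G.Adj p.2 q.2 := h.s2.adj p hp q hq
      have i2 : T G col m (some p.1) q.1 = T G col m (some p.2) q.2 :=
        ih (by omega) q hq (some p) (fun r hr => by rw [← Option.some.inj hr]; exact hp)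
      have i3 : some q.1 ≠ b.map Prod.fst ↔ some q.2 ≠ b.map Prod.snd := by
        cases b with
        | none => simp
        | some r =>
          simp only [Option.map_some, ne_eq, Option.some.injEq]
          constructor
          · intro hne he
            exact hne (congrArg Prod.fst (h.s2.inj q hq r (hb r rfl) he))
          · intro hne he
            exact hne (congrArg Prod.snd (h.s1.inj q hq r (hb r rfl) he))
      rw [i1, i2, i3]
    rw [e1] at s1
    rw [e2] at s2
    rw [h4] at s1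
    omega

theorem Good.type_eq {n ρ : ℕ} {S : Finset (V × V)} (h : Good G col n ρ S) {m : ℕ} (hm : m ≤ n)
    {p : V × V} (hp : p ∈ S) : T G col m none p.1 = T G col m none p.2 :=
  h.type_eq_aux m hm p hp none (fun q hq => by simp at hq)

theorem Good.near {K : ℕ} (hK : (K : ℕ∞) < G.egirth) (k : ℕ) : ∀ {n ρ : ℕ} {S : Finset (V × V)},
    Good G col (n + k) (ρ + k) S → S.card + k + 1 ≤ K → 1 ≤ ρ → ∀ {p : V × V}, p ∈ S → ∀ {x : V},
    D G k p.1 x → ∃ S', S ⊆ S' ∧ Good G col n ρ S' ∧ S'.card ≤ S.card + k ∧ ∃ y, (x, y) ∈ S' := by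
  induction k with
  | zero =>
    intro n ρ S h _ _ p hp x hx
    obtain ⟨w, hw⟩ := hx
    have h0 : w.length = 0 := by omega
    have := Walk.eq_of_length_eq_zero h0
    subst this
    exact ⟨S, Finset.Subset.refl _, h, by omega, p.2, hp⟩
  | succ k ih =>
    intro n ρ S h hc hρ p hp x hx
    obtain ⟨w, hw⟩ := hx
    cases w with
    | nil => exact ⟨S, Finset.Subset.refl _, h.mono (by omega) (by omega), by omega, p.2, hp⟩
    | @cons _ c _ hadj w =>
      have hDc : D G k c x := ⟨w, by rw [Walk.length_cons] at hw; omega⟩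
      by_cases hcS : ∃ q ∈ S, q.1 = c
      · obtain ⟨q, hq, rfl⟩ := hcS
        obtain ⟨S', h1, h2, h3, h4⟩ := ih (n := n) (ρ := ρ) (h.mono (by omega) (by omega))
          (by omega) hρ hq hDc
        exact ⟨S', h1, h2, by omega, h4⟩
      · push Not at hcS
        have hpos : 0 < cnt (fun c' => (G.Adj p.1 c' ∧ ∀ q ∈ S, q.1 ≠ c') ∧
            T G col (n + (k + 1)) (some p.1) c' = T G col (n + (k + 1)) (some p.1) c) :=
          cnt_pos.2 ⟨c, ⟨hadj, hcS⟩, rfl⟩
        have hs := h.side p hp (T G col (n + (k + 1)) (some p.1) c)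
        have hpos' : 0 < cnt (fun c' => (G.Adj p.2 c' ∧ ∀ q ∈ S, q.2 ≠ c') ∧
            T G col (n + (k + 1)) (some p.2) c' = T G col (n + (k + 1)) (some p.1) c) := by
          omega
        obtain ⟨c', ⟨hc1, hc2⟩, hc3⟩ := cnt_pos.1 hpos'
        have hadd := (Good.add (n := n + k) (ρ := ρ + k) h hK (by omega) (by omega) hp (e := (c, c'))
          hadj hc1 hcS hc2 hc3.symm).1
        have hcard : (insert (c, c') S).card ≤ S.card + 1 := Finset.card_insert_le _ _
        obtain ⟨S', h1, h2, h3, h4⟩ := ih (n := n) (ρ := ρ) hadd (by omega) hρ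
          (Finset.mem_insert_self _ _) hDc
        exact ⟨S', (Finset.subset_insert _ _).trans h1, h2, by omega, h4⟩

theorem Good.swap {n ρ : ℕ} {S : Finset (V × V)} (h : Good G col n ρ S) :
    Good G col n ρ (S.image Prod.swap) := by
  let φ : Gam G S →g Gam G (S.image Prod.swap) :=
    { toFun := fun p => ⟨p.1.swap, Finset.mem_image_of_mem _ p.2⟩
      map_rel' := fun {a b} hab => (h.s2.adj a.1 a.2 b.1 b.2).1 hab }
  refine ⟨⟨?_, ?_, ?_⟩, ⟨?_, ?_, ?_⟩, ?_, ?_⟩
  · intro p hp q hq hpq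
    obtain ⟨p', hp', rfl⟩ := Finset.mem_image.1 hp
    obtain ⟨q', hq', rfl⟩ := Finset.mem_image.1 hq
    rw [h.s2.inj p' hp' q' hq' hpq]
  · intro p hp q hq
    exact Iff.rfl
  · rintro ⟨p, hp⟩ ⟨q, hq⟩ hpq
    obtain ⟨p', hp', rfl⟩ := Finset.mem_image.1 hp
    obtain ⟨q', hq', rfl⟩ := Finset.mem_image.1 hq
    exact h.s2.sep ⟨p', hp'⟩ ⟨q', hq'⟩ (fun hr => hpq (hr.map φ))
  · intro p hp q hq hpq
    obtain ⟨p', hp', rfl⟩ := Finset.mem_image.1 hp
    obtain ⟨q', hq', rfl⟩ := Finset.mem_image.1 hq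
    rw [h.s1.inj p' hp' q' hq' hpq]
  · intro p hp q hq
    obtain ⟨p', hp', rfl⟩ := Finset.mem_image.1 hp
    obtain ⟨q', hq', rfl⟩ := Finset.mem_image.1 hq
    exact (h.s2.adj p' hp' q' hq').symm
  · rintro ⟨p, hp⟩ ⟨q, hq⟩ hpq
    obtain ⟨p', hp', rfl⟩ := Finset.mem_image.1 hp
    obtain ⟨q', hq', rfl⟩ := Finset.mem_image.1 hq
    exact h.s1.sep ⟨p', hp'⟩ ⟨q', hq'⟩ (fun hr => hpq (hr.map φ))
  · intro p hp
    obtain ⟨p', hp', rfl⟩ := Finset.mem_image.1 hp
    exact (h.hcol p' hp').symm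
  · intro p hp τ
    obtain ⟨p', hp', rfl⟩ := Finset.mem_image.1 hp
    have := h.side p' hp' τ
    have e1 : cnt (fun c => (G.Adj p'.swap.1 c ∧ ∀ q ∈ S.image Prod.swap, q.1 ≠ c) ∧
        T G col n (some p'.swap.1) c = τ) =
        cnt (fun c => (G.Adj p'.2 c ∧ ∀ q ∈ S, q.2 ≠ c) ∧ T G col n (some p'.2) c = τ) := by
      apply cnt_congr
      intro c
      simp only [Finset.forall_mem_image, Prod.fst_swap]
    have e2 : cnt (fun c => (G.Adj p'.swap.2 c ∧ ∀ q ∈ S.image Prod.swap, q.2 ≠ c) ∧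
        T G col n (some p'.swap.2) c = τ) =
        cnt (fun c => (G.Adj p'.1 c ∧ ∀ q ∈ S, q.1 ≠ c) ∧ T G col n (some p'.1) c = τ) := by
      apply cnt_congr
      intro c
      simp only [Finset.forall_mem_image, Prod.snd_swap]
    rw [e1, e2]
    exact this.symm

omit [Fintype V] in
theorem swap_swap_image (S : Finset (V × V)) : (S.image Prod.swap).image Prod.swap = S := by
  rw [Finset.image_image]
  simp

omit [Fintype V] in
theorem mem_swap_image {S : Finset (V × V)} {a b : V} : (a, b) ∈ S.image Prod.swap ↔ (b, a) ∈ S := by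
  rw [Finset.mem_image]
  constructor
  · rintro ⟨p, hp, h⟩
    have : p = (b, a) := by rw [← Prod.swap_swap p, h]; rfl
    rwa [← this]
  · intro h
    exact ⟨(b, a), h, rfl⟩

omit [Fintype V] in
theorem card_swap_image (S : Finset (V × V)) : (S.image Prod.swap).card = S.card :=
  Finset.card_image_of_injective _ Prod.swap_injective

theorem Good.near' {K : ℕ} (hK : (K : ℕ∞) < G.egirth) (k : ℕ) {n ρ : ℕ} {S : Finset (V × V)}
    (h : Good G col (n + k) (ρ + k) S) (hc : S.card + k + 1 ≤ K) (hρ : 1 ≤ ρ) {p : V × V} (hp : p ∈ S)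
    {y : V} (hy : D G k p.2 y) :
    ∃ S', S ⊆ S' ∧ Good G col n ρ S' ∧ S'.card ≤ S.card + k ∧ ∃ x, (x, y) ∈ S' := by
  obtain ⟨S', h1, h2, h3, x, h4⟩ := Good.near hK k (n := n) (ρ := ρ) h.swap
    (by rw [card_swap_image]; exact hc) hρ (p := p.swap) (Finset.mem_image_of_mem _ hp) (x := y) hy
  refine ⟨S'.image Prod.swap, ?_, h2.swap, ?_, x, ?_⟩
  · rw [← swap_swap_image S]
    exact Finset.image_subset_image h1
  · rw [card_swap_image]
    rw [card_swap_image] at h3
    exact h3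
  · exact mem_swap_image.2 h4

theorem Good.near_many {K : ℕ} (hK : (K : ℕ∞) < G.egirth) (k : ℕ) (Y : Finset V) :
    ∀ {n ρ : ℕ} {S : Finset (V × V)},
    Good G col (n + Y.card * k) (ρ + Y.card * k) S → S.card + Y.card * k + 1 ≤ K → 1 ≤ ρ →
    (∀ y ∈ Y, ∃ p ∈ S, D G k p.2 y) →
    ∃ S', S ⊆ S' ∧ Good G col n ρ S' ∧ S'.card ≤ S.card + Y.card * k ∧ ∀ y ∈ Y, ∃ x, (x, y) ∈ S' := by
  induction Y using Finset.induction_on with
  | empty =>
    intro n ρ S h _ _ _
    exact ⟨S, Finset.Subset.refl _, by simpa using h, by simp, by simp⟩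
  | insert y Y hy ih =>
    intro n ρ S h hc hρ hY
    rw [Finset.card_insert_of_notMem hy, Nat.add_mul, Nat.one_mul] at h hc ⊢
    obtain ⟨S1, h1, h2, h3, h4⟩ := ih (n := n + k) (ρ := ρ + k) (S := S)
      (h.mono (by omega) (by omega)) (by omega) (by omega)
      (fun z hz => hY z (Finset.mem_insert_of_mem hz))
    obtain ⟨p, hp, hpy⟩ := hY y (Finset.mem_insert_self _ _)
    obtain ⟨S2, g1, g2, g3, g4⟩ := Good.near' hK k h2 (by omega) hρ (h1 hp) hpy
    refine ⟨S2, h1.trans g1, g2, by omega, ?_⟩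
    intro z hz
    rw [Finset.mem_insert] at hz
    rcases hz with rfl | hz
    · exact g4
    · obtain ⟨x, hx⟩ := h4 z hz
      exact ⟨x, g1 hx⟩

/-- Gaifman's argument: a far witness of the right type. -/
theorem Good.exists_far {K n n' ρ r : ℕ} (hK : (K : ℕ∞) < G.egirth) {S : Finset (V × V)}
    (h : Good G col n ρ S) (hn : n' + 1 + S.card * r ≤ n) (hρ : 2 * r + S.card * r ≤ ρ) (hr : 1 ≤ r)
    (hc : S.card + S.card * r + 2 * r + 1 ≤ K) {x : V} (hx : ∀ p ∈ S, ¬ D G (3 * r) p.1 x) :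
    ∃ y, T G col (n' + 1) none x = T G col (n' + 1) none y ∧ ∀ p ∈ S, ¬ D G r p.2 y := by
  by_contra hcon
  push Not at hcon
  let scat : Finset V → Prop := fun Y => (∀ y ∈ Y, T G col (n' + 1) none x = T G col (n' + 1) none y) ∧
    ∀ y ∈ Y, ∀ z ∈ Y, y ≠ z → ¬ D G (2 * r) y z
  obtain ⟨Y, hY, hmax⟩ := Finset.exists_max_image (Finset.univ.filter scat) Finset.card
    ⟨∅, by simp [scat]⟩
  have hYs : scat Y := (Finset.mem_filter.1 hY).2
  have hmax' : ∀ Z, scat Z → Z.card ≤ Y.card := fun Z hZ => hmax Z (by simp [hZ])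
  have hYcard : Y.card ≤ S.card := by
    choose! f hf1 hf2 using fun y (hy : y ∈ Y) => hcon y (hYs.1 y hy)
    apply Finset.card_le_card_of_injOn f hf1
    intro y hy z hz hyz
    by_contra hne
    apply hYs.2 y hy z hz hne
    have h1 := hf2 y hy
    have h2 := hf2 z hz
    rw [hyz] at h1
    exact (h1.symm.trans h2).mono (by omega)
  have hYr : Y.card * r ≤ S.card * r := Nat.mul_le_mul_right _ hYcard
  obtain ⟨S', h1, h2, h3, h4⟩ := Good.near_many hK r Y (n := n' + 1) (ρ := 2 * r) (S := S)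
    (h.mono (by omega) (by omega)) (by omega) (by omega) (fun y hy => hcon y (hYs.1 y hy))
  choose! g hg using h4
  have hcard' : S'.card + 2 * r ≤ K := by omega
  have hginj : ∀ y ∈ Y, ∀ z ∈ Y, g y = g z → y = z := by
    intro y hy z hz hyz
    have := h2.s1.inj _ (hg y hy) _ (hg z hz) hyz
    exact congrArg Prod.snd this
  have hxg : ∀ y ∈ Y, ¬ D G (2 * r) x (g y) := by
    intro y hy hD
    obtain ⟨p, hp, hpy⟩ := hcon y (hYs.1 y hy)
    have : D G r p.1 (g y) :=
      h2.s2.dist h2.s1 hK (by omega : S'.card + r ≤ K) (by omega) (h1 hp) (hg y hy) hpy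
    exact hx p hp ((this.trans hD.symm).mono (by omega))
  have hbig : scat (insert x (Y.image g)) := by
    constructor
    · intro y hy
      rw [Finset.mem_insert, Finset.mem_image] at hy
      rcases hy with rfl | ⟨z, hz, rfl⟩
      · rfl
      · rw [hYs.1 z hz]
        exact (h2.type_eq le_rfl (hg z hz)).symm
    · intro y hy z hz hne hD
      rw [Finset.mem_insert, Finset.mem_image] at hy hz
      rcases hy with rfl | ⟨y', hy', rfl⟩
      · rcases hz with rfl | ⟨z', hz', rfl⟩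
        · exact hne rfl
        · exact hxg z' hz' hD
      · rcases hz with rfl | ⟨z', hz', rfl⟩
        · exact hxg y' hy' hD.symm
        · have hne' : y' ≠ z' := fun hh => hne (by rw [hh])
          apply hYs.2 y' hy' z' hz' hne'
          exact h2.s1.dist h2.s2 hK hcard' le_rfl (hg y' hy') (hg z' hz') hD
  have := hmax' _ hbig
  rw [Finset.card_insert_of_notMem, Finset.card_image_of_injOn] at this
  · omega
  · intro y hy z hz hyz
    exact hginj y hy z hz hyz
  · rw [Finset.mem_image]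
    rintro ⟨y, hy, hyx⟩
    apply hxg y hy
    rw [hyx]
    exact D.refl _ _ _

/-- The budget: `q` rounds, at most `s` pairs. -/
def B : ℕ → ℕ → ℕ
  | 0, s => s + 2
  | q + 1, s => B q (s + 3 * (B q (s + 1) + 1)) + 3 * (B q (s + 1) + 1) +
      (s + 4) * (B q (s + 1) + 1) + s + 4

theorem EqF_of_good (q : ℕ) : ∀ (s : ℕ), ((B q s : ℕ) : ℕ∞) < G.egirth → ∀ (S : Finset (V × V)),
    S.card ≤ s → Good G col (B q s) (B q s) S → ∀ (k : ℕ) (a b : Fin k → V),
    (∀ i, (a i, b i) ∈ S) → EqF G col q k a b := by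
  induction q with
  | zero =>
    intro s _ S _ h k a b hab
    refine ⟨fun i j => ?_, fun i j => ?_, fun i => ?_⟩
    · constructor
      · intro hh
        exact congrArg Prod.snd (h.s1.inj _ (hab i) _ (hab j) hh)
      · intro hh
        exact congrArg Prod.fst (h.s2.inj _ (hab i) _ (hab j) hh)
    · exact h.s2.adj _ (hab i) _ (hab j)
    · exact h.hcol _ (hab i)
  | succ q ih =>
    -- one direction, to be used twice
    have key : ∀ (s : ℕ), ((B (q + 1) s : ℕ) : ℕ∞) < G.egirth → ∀ (S : Finset (V × V)),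
        S.card ≤ s → Good G col (B (q + 1) s) (B (q + 1) s) S → ∀ x, ∃ y s' S', S ⊆ S' ∧
        S'.card ≤ s' ∧ ((B q s' : ℕ) : ℕ∞) < G.egirth ∧ Good G col (B q s') (B q s') S' ∧ (x, y) ∈ S' := by
      intro s hK S hS h x
      set r := B q (s + 1) + 1 with hr
      have hB : B (q + 1) s = B q (s + 3 * r) + 3 * r + (s + 4) * r + s + 4 := rfl
      have hsr : (s + 4) * r = s * r + 4 * r := by ring
      have hSr : S.card * r ≤ s * r := Nat.mul_le_mul_right _ hS
      by_cases hx : ∃ p ∈ S, D G (3 * r) p.1 x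
      · obtain ⟨p, hp, hpx⟩ := hx
        obtain ⟨S', h1, h2, h3, y, h4⟩ := Good.near hK (3 * r) (n := B q (s + 3 * r))
          (ρ := B q (s + 3 * r) + 1) (S := S) (h.mono (by omega) (by omega)) (by omega) (by omega) hp hpx
        refine ⟨y, s + 3 * r, S', h1, by omega, ?_, h2.mono le_rfl (by omega), h4⟩
        refine lt_of_le_of_lt ?_ hK
        exact_mod_cast (by omega : B q (s + 3 * r) ≤ B (q + 1) s)
      · push Not at hx
        obtain ⟨y, hy1, hy2⟩ := Good.exists_far (n' := B q (s + 1)) (r := r) hK h (by omega) (by omega)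
          (by omega) (by omega) hx
        have hfar := Good.far (n := B q (s + 1)) (ρ := r) (S := S) (e := (x, y))
          (h.mono (by omega) (by omega)) (by omega)
          (fun p hp hD => hx p hp (hD.mono (by omega))) hy2 hy1
        refine ⟨y, s + 1, insert (x, y) S, Finset.subset_insert _ _, ?_, ?_, hfar.mono le_rfl (by omega),
          Finset.mem_insert_self _ _⟩
        · have := Finset.card_insert_le (x, y) S
          omega
        · refine lt_of_le_of_lt ?_ hK
          exact_mod_cast (by omega : B q (s + 1) ≤ B (q + 1) s)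
    intro s hK S hS h k a b hab
    refine ⟨fun x => ?_, fun y => ?_⟩
    · obtain ⟨y, s', S', h1, h2, h3, h4, h5⟩ := key s hK S hS h x
      refine ⟨y, ih s' h3 S' h2 h4 (k + 1) _ _ ?_⟩
      intro i
      refine Fin.lastCases ?_ (fun i => ?_) i
      · simpa using h5
      · simpa using h1 (hab i)
    · obtain ⟨x, s', S', h1, h2, h3, h4, h5⟩ := key s hK (S.image Prod.swap)
        (by rw [card_swap_image]; exact hS) h.swap y
      refine ⟨x, ih s' h3 (S'.image Prod.swap) (by rw [card_swap_image]; exact h2) h4.swap (k + 1) _ _ ?_⟩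
      intro i
      refine Fin.lastCases ?_ (fun i => ?_) i
      · simpa using mem_swap_image.2 h5
      · have : (b i, a i) ∈ S' := h1 (mem_swap_image.2 (hab i))
        simpa using mem_swap_image.2 this

end Pool.Agent.EPT27
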