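import Pool.Agent.EPT27.EFThm
import Pool.Agent.EPT.Comp

/-! Back-and-forth equivalence of sets of pairs, formulas, transfer along definable structures. -/

namespace Pool.Agent.EPT27

open SimpleGraph Classical Pool.Agent.EPT

/-- `q`-round back-and-forth equivalence of the position `X` (a set of pairs). -/
def EqR {V C : Type} (E : V → V → Prop) (col : V → C) : ℕ → Set (V × V) → Prop
  | 0, X => ∀ p ∈ X, ∀ r ∈ X, (p.1 = r.1 ↔ p.2 = r.2) ∧ (E p.1 r.1 ↔ E p.2 r.2) ∧ col p.1 = col p.2
  | q + 1, X => (∀ x, ∃ y, EqR E col q (insert (x, y) X)) ∧ (∀ y, ∃ x, EqR E col q (insert (x, y) X))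

section basic

variable {V C : Type} {E : V → V → Prop} {col : V → C}

theorem EqR.subset {q : ℕ} : ∀ {X Y : Set (V × V)}, EqR E col q X → Y ⊆ X → EqR E col q Y := by
  induction q with
  | zero =>
    intro X Y h hY p hp r hr
    exact h p (hY hp) r (hY hr)
  | succ q ih =>
    intro X Y h hY
    constructor
    · intro x
      obtain ⟨y, hy⟩ := h.1 x
      exact ⟨y, ih hy (Set.insert_subset_insert hY)⟩
    · intro y
      obtain ⟨x, hx⟩ := h.2 y
      exact ⟨x, ih hx (Set.insert_subset_insert hY)⟩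

theorem EqR.pred {q : ℕ} : ∀ {X : Set (V × V)}, EqR E col (q + 1) X → EqR E col q X := by
  induction q with
  | zero =>
    intro X h p hp r hr
    obtain ⟨y, hy⟩ := h.1 p.1
    exact hy p (Set.mem_insert_of_mem _ hp) r (Set.mem_insert_of_mem _ hr)
  | succ q ih =>
    intro X h
    constructor
    · intro x
      obtain ⟨y, hy⟩ := h.1 x
      exact ⟨y, ih hy⟩
    · intro y
      obtain ⟨x, hx⟩ := h.2 y
      exact ⟨x, ih hx⟩

theorem EqR.mono {q q' : ℕ} {X : Set (V × V)} (h : EqR E col q' X) (hq : q ≤ q') : EqR E col q X := by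
  induction q', hq using Nat.le_induction with
  | base => exact h
  | succ q' _ ih => exact ih h.pred

theorem EqR.zero {q : ℕ} {X : Set (V × V)} (h : EqR E col q X) : EqR E col 0 X := h.mono (Nat.zero_le _)

theorem EqR.hcol {q : ℕ} {X : Set (V × V)} (h : EqR E col q X) {p : V × V} (hp : p ∈ X) :
    col p.1 = col p.2 := (h.zero p hp p hp).2.2

theorem EqR.swap {q : ℕ} : ∀ {X : Set (V × V)}, EqR E col q X → EqR E col q (Prod.swap ⁻¹' X) := by
  induction q with
  | zero =>
    intro X h p hp r hr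
    obtain ⟨h1, h2, h3⟩ := h _ hp _ hr
    exact ⟨h1.symm, h2.symm, h3.symm⟩
  | succ q ih =>
    intro X h
    have e : ∀ x y, Prod.swap ⁻¹' (insert (x, y) X) = insert (y, x) (Prod.swap ⁻¹' X) := by
      intro x y
      ext p
      simp only [Set.mem_preimage, Set.mem_insert_iff]
      constructor
      · rintro (h | h)
        · left
          rw [← Prod.swap_swap p, h]; rfl
        · exact Or.inr h
      · rintro (h | h)
        · left
          rw [h]; rfl
        · exact Or.inr h
    constructor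
    · intro x
      obtain ⟨y, hy⟩ := h.2 x
      refine ⟨y, ?_⟩
      rw [← e]
      exact ih hy
    · intro y
      obtain ⟨x, hx⟩ := h.1 y
      refine ⟨x, ?_⟩
      rw [← e]
      exact ih hx

/-- Following a walk in the game. -/
theorem EqR.walk {q : ℕ} (m : ℕ) : ∀ {X : Set (V × V)}, EqR E col (q + m) X → ∀ (x y : V), (x, y) ∈ X →
    ∀ a : ℕ → V, a 0 = x → ∃ b : ℕ → V, b 0 = y ∧ EqR E col q (X ∪ {p | ∃ i ≤ m, p = (a i, b i)}) := by
  induction m with
  | zero =>
    intro X h x y hxy a ha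
    refine ⟨fun _ => y, rfl, h.subset ?_⟩
    rintro p (hp | ⟨i, hi, rfl⟩)
    · exact hp
    · obtain rfl : i = 0 := by omega
      rw [ha]
      exact hxy
  | succ m ih =>
    intro X h x y hxy a ha
    obtain ⟨z, hz⟩ := h.1 (a 1)
    have hz' : EqR E col (q + m) (insert (a 1, z) X) := hz
    obtain ⟨b, hb0, hb⟩ := ih hz' (a 1) z (Set.mem_insert _ _) (fun i => a (i + 1)) rfl
    refine ⟨fun i => match i with | 0 => y | i + 1 => b i, rfl, hb.subset ?_⟩
    rintro p (hp | ⟨i, hi, rfl⟩)
    · exact Or.inl (Set.mem_insert_of_mem _ hp)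
    · cases i with
      | zero =>
        left
        show (a 0, y) ∈ _
        rw [ha]
        exact Set.mem_insert_of_mem _ hxy
      | succ i =>
        right
        exact ⟨i, by omega, rfl⟩

end basic

/-- Back-and-forth equivalence from good maps. -/
theorem EqR_of_good {V C : Type} [Fintype V] [Fintype C] {G : SimpleGraph V} {col : V → C} (q : ℕ) :
    ∀ (s : ℕ), ((B q s : ℕ) : ℕ∞) < G.egirth → ∀ (S : Finset (V × V)),
    S.card ≤ s → Good G col (B q s) (B q s) S → ∀ X : Set (V × V), X ⊆ ↑S → EqR G.Adj col q X := by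
  induction q with
  | zero =>
    intro s _ S _ h X hX p hp r hr
    refine ⟨⟨fun hh => ?_, fun hh => ?_⟩, ?_, ?_⟩
    · exact congrArg Prod.snd (h.s1.inj _ (hX hp) _ (hX hr) hh)
    · exact congrArg Prod.fst (h.s2.inj _ (hX hp) _ (hX hr) hh)
    · exact h.s2.adj _ (hX hp) _ (hX hr)
    · exact h.hcol _ (hX hp)
  | succ q ih =>
    have key : ∀ (s : ℕ), ((B (q + 1) s : ℕ) : ℕ∞) < G.egirth → ∀ (S : Finset (V × V)),
        S.card ≤ s → Good G col (B (q + 1) s) (B (q + 1) s) S → ∀ x, ∃ y s' S', S ⊆ S' ∧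
        S'.card ≤ s' ∧ ((B q s' : ℕ) : ℕ∞) < G.egirth ∧ Good G col (B q s') (B q s') S' ∧ (x, y) ∈ S' := by
      intro s hK S hS h x
      set r := B q (s + 1) + 1 with hr
      have hB : B (q + 1) s = B q (s + 3 * r) + 3 * r + (s + 4) * r + s + 4 := rfl
      have hsr : (s + 4) * r = s * r + 4 * r := by ring
      have hSr : S.card * r ≤ s * r := Nat.mul_le_mul_right _ hS
      by_cases hx : ∃ p ∈ S, D G (3 * r) p.1 x
      · obtain ⟨p, hp, hpx⟩ := hx
        obtain ⟨S', h1, h2, h3, y, h4⟩ := Good.near hK (3 * r) (n := B q (s + 3 * r))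
          (ρ := B q (s + 3 * r) + 1) (S := S) (h.mono (by omega) (by omega)) (by omega) (by omega) hp hpx
        refine ⟨y, s + 3 * r, S', h1, by omega, ?_, h2.mono le_rfl (by omega), h4⟩
        refine lt_of_le_of_lt ?_ hK
        exact_mod_cast (by omega : B q (s + 3 * r) ≤ B (q + 1) s)
      · push Not at hx
        obtain ⟨y, hy1, hy2⟩ := Good.exists_far (n' := B q (s + 1)) (r := r) hK h (by omega) (by omega)
          (by omega) (by omega) hx
        have hfar := Good.far (n := B q (s + 1)) (ρ := r) (S := S) (e := (x, y))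
          (h.mono (by omega) (by omega)) (by omega)
          (fun p hp hD => hx p hp (hD.mono (by omega))) hy2 hy1
        refine ⟨y, s + 1, insert (x, y) S, Finset.subset_insert _ _, ?_, ?_, hfar.mono le_rfl (by omega),
          Finset.mem_insert_self _ _⟩
        · have := Finset.card_insert_le (x, y) S
          omega
        · refine lt_of_le_of_lt ?_ hK
          exact_mod_cast (by omega : B q (s + 1) ≤ B (q + 1) s)
    intro s hK S hS h X hX
    refine ⟨fun x => ?_, fun y => ?_⟩
    · obtain ⟨y, s', S', h1, h2, h3, h4, h5⟩ := key s hK S hS h x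
      refine ⟨y, ih s' h3 S' h2 h4 _ ?_⟩
      intro p hp
      rcases hp with rfl | hp
      · exact h5
      · exact h1 (hX hp)
    · obtain ⟨x, s', S', h1, h2, h3, h4, h5⟩ := key s hK (S.image Prod.swap)
        (by rw [card_swap_image]; exact hS) h.swap y
      refine ⟨x, ih s' h3 (S'.image Prod.swap) (by rw [card_swap_image]; exact h2) h4.swap _ ?_⟩
      intro p hp
      rcases hp with rfl | hp
      · exact mem_swap_image.2 h5
      · have : (p.2, p.1) ∈ S' := h1 (mem_swap_image.2 (hX hp))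
        exact mem_swap_image.2 this

/-- Quantifier rank. -/
def rk {c : ℕ} : {n : ℕ} → Fml c n → ℕ
  | _, .tru => 0
  | _, .fls => 0
  | _, .eq _ _ => 0
  | _, .adj _ _ => 0
  | _, .col _ _ => 0
  | _, .neg φ => rk φ
  | _, .and φ χ => max (rk φ) (rk χ)
  | _, .or φ χ => max (rk φ) (rk χ)
  | _, .ex φ => rk φ + 1
  | _, .all φ => rk φ + 1

theorem range_snoc {V : Type} {n : ℕ} (a b : Fin n → V) (x y : V) :
    (Set.range fun i : Fin (n + 1) => (Fin.snoc (α := fun _ => V) a x i, Fin.snoc (α := fun _ => V) b y i)) =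
      insert (x, y) (Set.range fun i : Fin n => (a i, b i)) := by
  ext p
  simp only [Set.mem_range, Set.mem_insert_iff]
  constructor
  · rintro ⟨i, rfl⟩
    refine Fin.lastCases ?_ (fun i => ?_) i
    · left; simp
    · right; exact ⟨i, by simp⟩
  · rintro (rfl | ⟨i, rfl⟩)
    · exact ⟨Fin.last n, by simp⟩
    · exact ⟨i.castSucc, by simp⟩

theorem holds_iff {c : ℕ} {V : Type} (E : V → V → Prop) (P : Fin c → V → Prop) {n : ℕ} (φ : Fml c n) :
    ∀ a b : Fin n → V, EqR E (fun v k => P k v) (rk φ) (Set.range fun i => (a i, b i)) →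
      (φ.Holds E P a ↔ φ.Holds E P b) := by
  induction φ with
  | tru => intro a b _; exact Iff.rfl
  | fls => intro a b _; exact Iff.rfl
  | eq i j => intro a b h; exact (h _ ⟨i, rfl⟩ _ ⟨j, rfl⟩).1
  | adj i j => intro a b h; exact (h _ ⟨i, rfl⟩ _ ⟨j, rfl⟩).2.1
  | col k i =>
    intro a b h
    have := (h _ ⟨i, rfl⟩ _ ⟨i, rfl⟩).2.2
    exact iff_of_eq (congrFun this k)
  | neg φ ih => intro a b h; exact not_congr (ih a b h)
  | and φ χ ih1 ih2 =>
    intro a b h
    exact and_congr (ih1 a b (h.mono (le_max_left _ _))) (ih2 a b (h.mono (le_max_right _ _)))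
  | or φ χ ih1 ih2 =>
    intro a b h
    exact or_congr (ih1 a b (h.mono (le_max_left _ _))) (ih2 a b (h.mono (le_max_right _ _)))
  | ex φ ih =>
    intro a b h
    constructor
    · rintro ⟨x, hx⟩
      obtain ⟨y, hy⟩ := h.1 x
      exact ⟨y, (ih _ _ (by rw [range_snoc]; exact hy)).1 hx⟩
    · rintro ⟨y, hy⟩
      obtain ⟨x, hx⟩ := h.2 y
      exact ⟨x, (ih _ _ (by rw [range_snoc]; exact hx)).2 hy⟩
  | all φ ih =>
    intro a b h
    constructor
    · intro hx y
      obtain ⟨x, hx'⟩ := h.2 y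
      exact (ih _ _ (by rw [range_snoc]; exact hx')).1 (hx x)
    · intro hy x
      obtain ⟨y, hy'⟩ := h.1 x
      exact (ih _ _ (by rw [range_snoc]; exact hy')).2 (hy y)

theorem range_two {V : Type} (x y x' y' : V) :
    (Set.range fun i : Fin 2 => ((![x, y] : Fin 2 → V) i, (![x', y'] : Fin 2 → V) i)) =
      {(x, x'), (y, y')} := by
  ext p
  simp only [Set.mem_range, Set.mem_insert_iff, Set.mem_singleton_iff]
  constructor
  · rintro ⟨i, rfl⟩
    fin_cases i
    · left; rfl
    · right; rfl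
  · rintro (rfl | rfl)
    · exact ⟨0, rfl⟩
    · exact ⟨1, rfl⟩

theorem holds_iff_two {c : ℕ} {V : Type} (E : V → V → Prop) (P : Fin c → V → Prop) (φ : Fml c 2)
    {x y x' y' : V} (h : EqR E (fun v k => P k v) (rk φ) {(x, x'), (y, y')}) :
    φ.Holds E P ![x, y] ↔ φ.Holds E P ![x', y'] :=
  holds_iff E P φ _ _ (by rw [range_two]; exact h)

/-- Transfer of the equivalence to a definable structure `W`, embedded by `e`. -/
theorem EqR_transfer {V W C C' : Type} {E : V → V → Prop} {col : V → C} {F : W → W → Prop}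
    {col' : W → C'} (e : W → V) (he : Function.Injective e) (r : ℕ)
    (himg : ∀ w v', col (e w) = col v' → ∃ w', e w' = v')
    (hcol : ∀ w w', col (e w) = col (e w') → col' w = col' w')
    (hF : ∀ w z w' z', EqR E col r {(e w, e w'), (e z, e z')} → (F w z ↔ F w' z')) (q : ℕ) :
    ∀ X : Set (W × W), EqR E col (q + r) ((fun p => (e p.1, e p.2)) '' X) → EqR F col' q X := by
  induction q with
  | zero =>
    intro X h p hp s hs
    have h0 := h.zero _ ⟨p, hp, rfl⟩ _ ⟨s, hs, rfl⟩
    refine ⟨?_, ?_, hcol _ _ h0.2.2⟩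
    · have := h0.1
      simp only [he.eq_iff] at this
      exact this
    · apply hF
      rw [Nat.zero_add] at h
      apply h.subset
      rintro t (rfl | rfl)
      · exact ⟨p, hp, rfl⟩
      · exact ⟨s, hs, rfl⟩
  | succ q ih =>
    intro X h
    rw [Nat.add_right_comm] at h
    constructor
    · intro x
      obtain ⟨y', hy'⟩ := h.1 (e x)
      obtain ⟨y, rfl⟩ := himg x y' (hy'.hcol (Set.mem_insert _ _))
      refine ⟨y, ih _ ?_⟩
      rw [Set.image_insert_eq]
      exact hy'
    · intro y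
      obtain ⟨x', hx'⟩ := h.2 (e y)
      obtain ⟨x, rfl⟩ := himg y x' (hx'.hcol (Set.mem_insert _ _)).symm
      refine ⟨x, ih _ ?_⟩
      rw [Set.image_insert_eq]
      exact hx'

end Pool.Agent.EPT27
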