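import Mathlib

/-! Short paths in graphs of large girth are unique. -/

namespace Pool.Agent.EPT27

open SimpleGraph

variable {V : Type*} {G : SimpleGraph V}

/-- Two paths between the same vertices whose total length is less than the girth coincide. -/
theorem path_unique {K : ℕ} (hg : (K : ℕ∞) < G.egirth) {x y : V} (p q : G.Walk x y)
    (hp : p.IsPath) (hq : q.IsPath) (h : p.length + q.length ≤ K) : p = q := by
  classical
  set F : Set (Sym2 V) := {e | e ∈ p.edges ∨ e ∈ q.edges} with hF
  let G' : SimpleGraph V := SimpleGraph.fromEdgeSet F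
  have hle : G' ≤ G := by
    intro a b hab
    rw [SimpleGraph.fromEdgeSet_adj] at hab
    rcases hab with ⟨h1 | h1, _⟩
    · exact p.adj_of_mem_edges h1
    · exact q.adj_of_mem_edges h1
  have hpe : ∀ e ∈ p.edges, e ∈ G'.edgeSet := by
    intro e he
    have h1 : e ∈ G.edgeSet := p.edges_subset_edgeSet he
    rw [SimpleGraph.edgeSet_fromEdgeSet]
    exact ⟨Or.inl he, fun hd => (SimpleGraph.not_isDiag_of_mem_edgeSet _ h1) (by simpa using hd)⟩
  have hqe : ∀ e ∈ q.edges, e ∈ G'.edgeSet := by
    intro e he
    have h1 : e ∈ G.edgeSet := q.edges_subset_edgeSet he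
    rw [SimpleGraph.edgeSet_fromEdgeSet]
    exact ⟨Or.inr he, fun hd => (SimpleGraph.not_isDiag_of_mem_edgeSet _ h1) (by simpa using hd)⟩
  have hac : G'.IsAcyclic := by
    intro a w hw
    have h1 : (w.mapLe hle).IsCycle := hw.mapLe hle
    have h2 := egirth_le_length h1
    have h3 : w.length ≤ K := by
      have h4 : w.edges.Nodup := hw.edges_nodup
      have h5 : w.edges.toFinset ⊆ p.edges.toFinset ∪ q.edges.toFinset := by
        intro e he
        rw [List.mem_toFinset] at he
        have h6 : e ∈ G'.edgeSet := w.edges_subset_edgeSet he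
        rw [SimpleGraph.edgeSet_fromEdgeSet] at h6
        rcases h6.1 with h7 | h7
        · simp [h7]
        · simp [h7]
      have h8 := Finset.card_le_card h5
      rw [List.toFinset_card_of_nodup h4, w.length_edges] at h8
      have h9 := Finset.card_union_le p.edges.toFinset q.edges.toFinset
      have h10 := p.edges.toFinset_card_le
      have h11 := q.edges.toFinset_card_le
      rw [p.length_edges] at h10
      rw [q.length_edges] at h11
      omega
    rw [Walk.length_map] at h2
    exact absurd (lt_of_lt_of_le hg h2) (by simpa using h3)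
  have hpp := hp.transfer hpe
  have hqq := hq.transfer hqe
  have := (hac.subsingleton_path x y).elim ⟨_, hpp⟩ ⟨_, hqq⟩
  have h1 : p.transfer G' hpe = q.transfer G' hqe := congrArg Subtype.val this
  have h2 := congrArg (fun w : G'.Walk x y => w.mapLe hle) h1
  beta_reduce at h2
  have h3 : ∀ (r : G.Walk x y) (hr : ∀ e ∈ r.edges, e ∈ G'.edgeSet), (r.transfer G' hr).mapLe hle = r := by
    intro r hr
    unfold Walk.mapLe
    rw [← Walk.transfer_eq_map_ofLE]
    · rw [Walk.transfer_transfer, Walk.transfer_self]
    · intro e he
      rw [Walk.edges_transfer] at he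
      exact r.edges_subset_edgeSet he
  rw [h3, h3] at h2
  exact h2

end Pool.Agent.EPT27
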