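import Pool.Agent.EPT27.Types

/-! Good partial maps between vertex sets of a coloured graph of large girth. -/

namespace Pool.Agent.EPT27

open SimpleGraph Classical

variable {V : Type*}

/-- Distance at most `k`. -/
def D (G : SimpleGraph V) (k : ℕ) (x y : V) : Prop := ∃ p : G.Walk x y, p.length ≤ k

theorem D.refl (G : SimpleGraph V) (k : ℕ) (x : V) : D G k x x := ⟨Walk.nil, by simp⟩

theorem D.symm {G : SimpleGraph V} {k : ℕ} {x y : V} (h : D G k x y) : D G k y x := by
  obtain ⟨p, hp⟩ := h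
  exact ⟨p.reverse, by simpa using hp⟩

theorem D.trans {G : SimpleGraph V} {k l : ℕ} {x y z : V} (h : D G k x y) (h' : D G l y z) :
    D G (k + l) x z := by
  obtain ⟨p, hp⟩ := h
  obtain ⟨q, hq⟩ := h'
  exact ⟨p.append q, by rw [Walk.length_append]; omega⟩

theorem D.mono {G : SimpleGraph V} {k l : ℕ} {x y : V} (h : D G k x y) (hkl : k ≤ l) : D G l x y := by
  obtain ⟨p, hp⟩ := h
  exact ⟨p, hp.trans hkl⟩

theorem D.of_adj {G : SimpleGraph V} {x y : V} (h : G.Adj x y) : D G 1 x y :=
  ⟨h.toWalk, by simp⟩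

theorem D.path {G : SimpleGraph V} {k : ℕ} {x y : V} (h : D G k x y) :
    ∃ p : G.Walk x y, p.IsPath ∧ p.length ≤ k := by
  obtain ⟨p, hp⟩ := h
  exact ⟨p.bypass, p.bypass_isPath, p.length_bypass_le_length.trans hp⟩

/-- The graph on the pairs of `S`. -/
def Gam (G : SimpleGraph V) (S : Finset (V × V)) : SimpleGraph {p // p ∈ S} := G.comap (fun p => p.1.1)

theorem Gam_adj {G : SimpleGraph V} {S : Finset (V × V)} {p q : {p // p ∈ S}} :
    (Gam G S).Adj p q ↔ G.Adj p.1.1 q.1.1 := Iff.rfl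

/-- The inclusion of the graphs on pairs. -/
def Gam.incl (G : SimpleGraph V) {S S' : Finset (V × V)} (h : S ⊆ S') : Gam G S →g Gam G S' where
  toFun p := ⟨p.1, h p.2⟩
  map_rel' := fun h => h

theorem Gam.reachable_mono {G : SimpleGraph V} {S S' : Finset (V × V)} (h : S ⊆ S')
    {p q : {p // p ∈ S}} (hr : (Gam G S).Reachable p q) :
    (Gam G S').Reachable ⟨p.1, h p.2⟩ ⟨q.1, h q.2⟩ :=
  hr.map (Gam.incl G h)

/-- One side of a good map. -/
structure Side (G : SimpleGraph V) (ρ : ℕ) (S : Finset (V × V)) (f : V × V → V) : Prop where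
  inj : ∀ p ∈ S, ∀ q ∈ S, f p = f q → p = q
  adj : ∀ p ∈ S, ∀ q ∈ S, G.Adj p.1 q.1 ↔ G.Adj (f p) (f q)
  sep : ∀ p q : {p // p ∈ S}, ¬ (Gam G S).Reachable p q → ¬ D G ρ (f p.1) (f q.1)

theorem Side.mono {G : SimpleGraph V} {ρ ρ' : ℕ} {S : Finset (V × V)} {f : V × V → V}
    (h : Side G ρ' S f) (hρ : ρ ≤ ρ') : Side G ρ S f :=
  ⟨h.inj, h.adj, fun p q hpq hD => h.sep p q hpq (hD.mono hρ)⟩

/-- The homomorphism given by a side. -/
def Side.hom {G : SimpleGraph V} {ρ : ℕ} {S : Finset (V × V)} {f : V × V → V} (h : Side G ρ S f) :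
    Gam G S →g G where
  toFun p := f p.1
  map_rel' := fun {a b} hab => (h.adj a.1 a.2 b.1 b.2).1 hab

theorem Side.hom_inj {G : SimpleGraph V} {ρ : ℕ} {S : Finset (V × V)} {f : V × V → V}
    (h : Side G ρ S f) : Function.Injective h.hom := fun p q hpq =>
  Subtype.ext (h.inj p.1 p.2 q.1 q.2 hpq)

theorem Side.walk {G : SimpleGraph V} {ρ : ℕ} {S : Finset (V × V)} {f : V × V → V}
    (h : Side G ρ S f) {p q : {p // p ∈ S}} (R : (Gam G S).Walk p q) :
    ∃ W : G.Walk (f p.1) (f q.1), W.length = R.length ∧ (R.IsPath → W.IsPath) ∧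
      ∀ v ∈ W.support, ∃ r ∈ S, f r = v := by
  refine ⟨R.map h.hom, Walk.length_map _ _, fun hR => Walk.IsPath.map h.hom_inj hR, ?_⟩
  intro v hv
  have hv' : v ∈ (R.map h.hom).support := hv
  rw [Walk.support_map, List.mem_map] at hv'
  obtain ⟨r, _, hr⟩ := hv'
  exact ⟨r.1, r.2, hr⟩

theorem reach_path {G : SimpleGraph V} {S : Finset (V × V)} {p q : {p // p ∈ S}}
    (h : (Gam G S).Reachable p q) : ∃ R : (Gam G S).Walk p q, R.IsPath ∧ R.length + 1 ≤ S.card := by
  obtain ⟨R, hR⟩ := h.exists_isPath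
  refine ⟨R, hR, ?_⟩
  have := hR.length_lt
  rw [Fintype.card_coe] at this
  exact this

/-- A vertex outside `f '' S` is adjacent to at most one vertex of `f '' S`. -/
theorem Side.adj_only {G : SimpleGraph V} {ρ K : ℕ} {S : Finset (V × V)} {f : V × V → V}
    (h : Side G ρ S f) (hK : (K : ℕ∞) < G.egirth) (hcard : S.card + 1 ≤ K) (hρ : 2 ≤ ρ)
    {p q : V × V} (hp : p ∈ S) (hq : q ∈ S) {c : V} (hc : ∀ r ∈ S, f r ≠ c)
    (hpc : G.Adj (f p) c) (hqc : G.Adj (f q) c) : q = p := by
  by_cases hr : (Gam G S).Reachable ⟨p, hp⟩ ⟨q, hq⟩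
  · obtain ⟨R, hR, hlen⟩ := reach_path hr
    obtain ⟨W, hW1, hW2, hW3⟩ := h.walk R
    have hP' : (W.concat hqc).IsPath := by
      rw [Walk.concat_isPath_iff]
      refine ⟨hW2 hR, ?_⟩
      intro hcW
      obtain ⟨r, hr, hr'⟩ := hW3 c hcW
      exact hc r hr hr'
    have hQ : (Walk.cons hpc Walk.nil : G.Walk (f p) c).IsPath := by
      rw [Walk.cons_isPath_iff]
      refine ⟨Walk.IsPath.nil, ?_⟩
      simp only [Walk.support_nil, List.mem_singleton]
      exact hc p hp
    have := path_unique hK _ _ hP' hQ (by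
      rw [Walk.length_concat, hW1, Walk.length_cons, Walk.length_nil]
      omega)
    have hl := congrArg Walk.length this
    rw [Walk.length_concat, hW1, Walk.length_cons, Walk.length_nil] at hl
    have h0 : R.length = 0 := by omega
    have := Walk.eq_of_length_eq_zero h0
    exact (congrArg Subtype.val this).symm
  · exfalso
    apply h.sep _ _ hr
    exact ((D.of_adj hpc).trans (D.of_adj hqc).symm).mono (by omega)

/-- Short distances are the same on the two sides. -/
theorem Side.dist {G : SimpleGraph V} {ρ ρ' K k : ℕ} {S : Finset (V × V)} {f g : V × V → V}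
    (hf : Side G ρ S f) (hg : Side G ρ' S g) (hK : (K : ℕ∞) < G.egirth) (hcard : S.card + k ≤ K)
    (hk : k ≤ ρ) {p q : V × V} (hp : p ∈ S) (hq : q ∈ S) (hD : D G k (f p) (f q)) :
    D G k (g p) (g q) := by
  by_cases hr : (Gam G S).Reachable ⟨p, hp⟩ ⟨q, hq⟩
  · obtain ⟨R, hR, hlen⟩ := reach_path hr
    obtain ⟨W, hW1, hW2, _⟩ := hf.walk R
    obtain ⟨W', hW1', _, _⟩ := hg.walk R
    obtain ⟨Q, hQ, hQk⟩ := hD.path
    have := path_unique hK _ _ (hW2 hR) hQ (by omega)
    have hl := congrArg Walk.length this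
    exact ⟨W', by omega⟩
  · exact absurd (hD.mono hk) (hf.sep _ _ hr)

theorem Side.insert {G : SimpleGraph V} {ρ ρ' : ℕ} {S : Finset (V × V)} {f : V × V → V}
    (h : Side G ρ' S f) (hρ : ρ ≤ ρ') {e : V × V} (h1 : ∀ q ∈ S, f q ≠ f e)
    (h2 : ∀ q ∈ S, G.Adj q.1 e.1 ↔ G.Adj (f q) (f e))
    (h3 : ∀ (q : V × V) (hq : q ∈ S), ¬ (Gam G (insert e S)).Reachable
      ⟨q, Finset.mem_insert_of_mem hq⟩ ⟨e, Finset.mem_insert_self _ _⟩ → ¬ D G ρ (f q) (f e)) :
    Side G ρ (insert e S) f := by
  refine ⟨?_, ?_, ?_⟩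
  · intro p hp q hq hpq
    rw [Finset.mem_insert] at hp hq
    rcases hp with rfl | hp
    · rcases hq with rfl | hq
      · rfl
      · exact absurd hpq.symm (h1 q hq)
    · rcases hq with rfl | hq
      · exact absurd hpq (h1 p hp)
      · exact h.inj p hp q hq hpq
  · intro p hp q hq
    rw [Finset.mem_insert] at hp hq
    rcases hp with rfl | hp
    · rcases hq with rfl | hq
      · simp
      · rw [G.adj_comm, h2 q hq, G.adj_comm]
    · rcases hq with rfl | hq
      · exact h2 p hp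
      · exact h.adj p hp q hq
  · rintro ⟨p, hp⟩ ⟨q, hq⟩ hpq
    have hp' := hp
    have hq' := hq
    rw [Finset.mem_insert] at hp' hq'
    rcases hp' with rfl | hp'
    · rcases hq' with rfl | hq'
      · exact absurd (Reachable.refl _) hpq
      · intro hD
        exact h3 q hq' (fun hr => hpq hr.symm) hD.symm
    · rcases hq' with rfl | hq'
      · exact h3 p hp' hpq
      · intro hD
        exact h.sep ⟨p, hp'⟩ ⟨q, hq'⟩
          (fun hr => hpq (Gam.reachable_mono (Finset.subset_insert _ _) hr)) (hD.mono hρ)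

/-- Good partial maps at depth `n` and radius `ρ`. -/
structure Good [Fintype V] {C : Type} [Fintype C] (G : SimpleGraph V) (col : V → C) (n ρ : ℕ)
    (S : Finset (V × V)) : Prop where
  s1 : Side G ρ S Prod.fst
  s2 : Side G ρ S Prod.snd
  hcol : ∀ p ∈ S, col p.1 = col p.2
  side : ∀ p ∈ S, ∀ τ : TT C n,
    min n (cnt fun c => (G.Adj p.1 c ∧ ∀ q ∈ S, q.1 ≠ c) ∧ T G col n (some p.1) c = τ) =
    min n (cnt fun c => (G.Adj p.2 c ∧ ∀ q ∈ S, q.2 ≠ c) ∧ T G col n (some p.2) c = τ)

variable [Fintype V] {C : Type} [Fintype C] {G : SimpleGraph V} {col : V → C}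

theorem cnt_down {N n : ℕ} {v v' : V} (P P' : V → Prop)
    (h : ∀ τ : TT C (n + 1), min N (cnt fun c => P c ∧ T G col (n + 1) (some v) c = τ) =
      min N (cnt fun c => P' c ∧ T G col (n + 1) (some v') c = τ)) (σ : TT C n) :
    min N (cnt fun c => P c ∧ T G col n (some v) c = σ) =
      min N (cnt fun c => P' c ∧ T G col n (some v') c = σ) := by
  have key : ∀ (Q : V → Prop) (w : V), cnt (fun c => Q c ∧ T G col n (some w) c = σ) =
      ∑ τ : TT C (n + 1), if proj n τ = σ then cnt (fun c => Q c ∧ T G col (n + 1) (some w) c = τ)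
        else 0 := by
    intro Q w
    rw [cnt_fiber _ (fun c => T G col (n + 1) (some w) c)]
    apply Finset.sum_congr rfl
    intro τ _
    by_cases hτ : proj n τ = σ
    · rw [if_pos hτ]
      apply cnt_congr
      intro c
      constructor
      · rintro ⟨⟨h1, _⟩, h3⟩
        exact ⟨h1, h3⟩
      · rintro ⟨h1, h3⟩
        refine ⟨⟨h1, ?_⟩, h3⟩
        rw [← proj_T, h3, hτ]
    · rw [if_neg hτ]
      by_contra hne
      obtain ⟨c, ⟨_, h3⟩, h4⟩ := cnt_pos.1 (Nat.pos_of_ne_zero hne)
      apply hτ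
      rw [← h4, proj_T, h3]
  rw [key P v, key P' v']
  apply min_sum_congr
  intro τ _
  by_cases hτ : proj n τ = σ
  · rw [if_pos hτ, if_pos hτ]
    exact h τ
  · rw [if_neg hτ, if_neg hτ]

theorem cnt_le_down {N N' : ℕ} (hN : N' ≤ N) {a b : ℕ} (h : min N a = min N b) :
    min N' a = min N' b := by omega

theorem cnt_down_le {N n m : ℕ} (hm : m ≤ n) {v v' : V} (P P' : V → Prop)
    (h : ∀ τ : TT C n, min N (cnt fun c => P c ∧ T G col n (some v) c = τ) =
      min N (cnt fun c => P' c ∧ T G col n (some v') c = τ)) (σ : TT C m) :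
    min N (cnt fun c => P c ∧ T G col m (some v) c = σ) =
      min N (cnt fun c => P' c ∧ T G col m (some v') c = σ) := by
  induction n, hm using Nat.le_induction with
  | base => exact h σ
  | succ n _ ih => exact ih (fun τ => cnt_down P P' h τ)

theorem Good.mono {n n' ρ ρ' : ℕ} {S : Finset (V × V)} (h : Good G col n' ρ' S) (hn : n ≤ n')
    (hρ : ρ ≤ ρ') : Good G col n ρ S :=
  ⟨h.s1.mono hρ, h.s2.mono hρ, h.hcol, fun p hp τ => cnt_le_down hn
    (cnt_down_le hn _ _ (h.side p hp) τ)⟩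

theorem cnt_and_eq (P : V → Prop) (e : V) : cnt (fun c => P c ∧ c = e) = if P e then 1 else 0 := by
  by_cases h : P e
  · rw [if_pos h]
    unfold cnt
    rw [Finset.card_eq_one]
    refine ⟨e, ?_⟩
    ext c
    simp only [Finset.mem_filter, Finset.mem_univ, true_and, Finset.mem_singleton]
    constructor
    · rintro ⟨_, h⟩; exact h
    · rintro rfl; exact ⟨h, rfl⟩
  · rw [if_neg h]
    by_contra hne
    obtain ⟨c, h1, h2⟩ := cnt_pos.1 (Nat.pos_of_ne_zero hne)
    subst h2
    exact h h1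

/-- Adding a pair of children with the same type. -/
theorem Good.add {n ρ K : ℕ} {S : Finset (V × V)} (h : Good G col (n + 1) (ρ + 1) S)
    (hK : (K : ℕ∞) < G.egirth) (hcard : S.card + 1 ≤ K) (hρ : 1 ≤ ρ) {p : V × V} (hp : p ∈ S)
    {e : V × V} (he1 : G.Adj p.1 e.1) (he2 : G.Adj p.2 e.2) (hS1 : ∀ q ∈ S, q.1 ≠ e.1)
    (hS2 : ∀ q ∈ S, q.2 ≠ e.2)
    (hT : T G col (n + 1) (some p.1) e.1 = T G col (n + 1) (some p.2) e.2) :
    Good G col n ρ (insert e S) ∧ (∀ q ∈ S, G.Adj q.1 e.1 → q = p) := by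
  have ho1 : ∀ q ∈ S, G.Adj q.1 e.1 → q = p := fun q hq hqe =>
    h.s1.adj_only hK hcard (by omega) hp hq hS1 he1 hqe
  have ho2 : ∀ q ∈ S, G.Adj q.2 e.2 → q = p := fun q hq hqe =>
    h.s2.adj_only hK hcard (by omega) hp hq hS2 he2 hqe
  refine ⟨⟨?_, ?_, ?_, ?_⟩, ho1⟩
  · apply h.s1.insert (by omega) hS1 (fun q _ => Iff.rfl)
    intro q hq hr hD
    have h1 : ¬ (Gam G S).Reachable ⟨q, hq⟩ ⟨p, hp⟩ := by
      intro h2
      apply hr
      refine (Gam.reachable_mono (Finset.subset_insert _ _) h2).trans ?_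
      exact Adj.reachable (show G.Adj p.1 e.1 from he1)
    apply h.s1.sep _ _ h1
    exact hD.trans (D.of_adj he1).symm
  · apply h.s2.insert (by omega) hS2
    · intro q hq
      constructor
      · intro hq'
        rw [ho1 q hq hq']
        exact he2
      · intro hq'
        rw [ho2 q hq hq']
        exact he1
    intro q hq hr hD
    have h1 : ¬ (Gam G S).Reachable ⟨q, hq⟩ ⟨p, hp⟩ := by
      intro h2
      apply hr
      refine (Gam.reachable_mono (Finset.subset_insert _ _) h2).trans ?_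
      exact Adj.reachable (show G.Adj p.1 e.1 from he1)
    apply h.s2.sep _ _ h1
    exact hD.trans (D.of_adj he2).symm
  · intro q hq
    rw [Finset.mem_insert] at hq
    rcases hq with rfl | hq
    · exact T_col G col hT
    · exact h.hcol q hq
  · intro q hq τ
    rw [Finset.mem_insert] at hq
    rcases hq with rfl | hq
    · -- the new pair
      have h2 := ((T_succ_iff G col).1 hT).2 τ
      have e1 : cnt (fun c => (G.Adj q.1 c ∧ ∀ r ∈ insert q S, r.1 ≠ c) ∧ T G col n (some q.1) c = τ) =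
          cnt (fun c => G.Adj q.1 c ∧ some c ≠ some p.1 ∧ T G col n (some q.1) c = τ) := by
        apply cnt_congr
        intro c
        constructor
        · rintro ⟨⟨a1, a2⟩, a3⟩
          exact ⟨a1, fun hc => a2 p (Finset.mem_insert_of_mem hp) (Option.some.inj hc).symm, a3⟩
        · rintro ⟨a1, a2, a3⟩
          refine ⟨⟨a1, ?_⟩, a3⟩
          intro r hr hrc
          rw [Finset.mem_insert] at hr
          rcases hr with rfl | hr
          · subst hrc
            exact G.irrefl a1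
          · have := ho1 r hr (by rw [hrc]; exact a1.symm)
            subst this
            exact a2 (by rw [hrc])
      have e2 : cnt (fun c => (G.Adj q.2 c ∧ ∀ r ∈ insert q S, r.2 ≠ c) ∧ T G col n (some q.2) c = τ) =
          cnt (fun c => G.Adj q.2 c ∧ some c ≠ some p.2 ∧ T G col n (some q.2) c = τ) := by
        apply cnt_congr
        intro c
        constructor
        · rintro ⟨⟨a1, a2⟩, a3⟩
          exact ⟨a1, fun hc => a2 p (Finset.mem_insert_of_mem hp) (Option.some.inj hc).symm, a3⟩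
        · rintro ⟨a1, a2, a3⟩
          refine ⟨⟨a1, ?_⟩, a3⟩
          intro r hr hrc
          rw [Finset.mem_insert] at hr
          rcases hr with rfl | hr
          · subst hrc
            exact G.irrefl a1
          · have := ho2 r hr (by rw [hrc]; exact a1.symm)
            subst this
            exact a2 (by rw [hrc])
      rw [e1, e2]
      omega
    · by_cases hqp : q = p
      · subst hqp
        -- the parent
        apply cnt_down
        intro σ
        have h3 := h.side q hq σ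
        have s1 := cnt_split (fun c => (G.Adj q.1 c ∧ ∀ r ∈ S, r.1 ≠ c) ∧ T G col (n + 1) (some q.1) c = σ)
          (fun c => c = e.1)
        have s2 := cnt_split (fun c => (G.Adj q.2 c ∧ ∀ r ∈ S, r.2 ≠ c) ∧ T G col (n + 1) (some q.2) c = σ)
          (fun c => c = e.2)
        rw [cnt_and_eq] at s1 s2
        have t1 : cnt (fun c => ((G.Adj q.1 c ∧ ∀ r ∈ S, r.1 ≠ c) ∧ T G col (n + 1) (some q.1) c = σ) ∧ ¬ c = e.1) =
            cnt (fun c => (G.Adj q.1 c ∧ ∀ r ∈ insert e S, r.1 ≠ c) ∧ T G col (n + 1) (some q.1) c = σ) := by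
          apply cnt_congr
          intro c
          constructor
          · rintro ⟨⟨⟨a1, a2⟩, a3⟩, a4⟩
            refine ⟨⟨a1, ?_⟩, a3⟩
            intro r hr
            rw [Finset.mem_insert] at hr
            rcases hr with rfl | hr
            · exact fun hh => a4 hh.symm
            · exact a2 r hr
          · rintro ⟨⟨a1, a2⟩, a3⟩
            exact ⟨⟨⟨a1, fun r hr => a2 r (Finset.mem_insert_of_mem hr)⟩, a3⟩,
              fun hh => a2 e (Finset.mem_insert_self _ _) hh.symm⟩
        have t2 : cnt (fun c => ((G.Adj q.2 c ∧ ∀ r ∈ S, r.2 ≠ c) ∧ T G col (n + 1) (some q.2) c = σ) ∧ ¬ c = e.2) =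
            cnt (fun c => (G.Adj q.2 c ∧ ∀ r ∈ insert e S, r.2 ≠ c) ∧ T G col (n + 1) (some q.2) c = σ) := by
          apply cnt_congr
          intro c
          constructor
          · rintro ⟨⟨⟨a1, a2⟩, a3⟩, a4⟩
            refine ⟨⟨a1, ?_⟩, a3⟩
            intro r hr
            rw [Finset.mem_insert] at hr
            rcases hr with rfl | hr
            · exact fun hh => a4 hh.symm
            · exact a2 r hr
          · rintro ⟨⟨a1, a2⟩, a3⟩
            exact ⟨⟨⟨a1, fun r hr => a2 r (Finset.mem_insert_of_mem hr)⟩, a3⟩,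
              fun hh => a2 e (Finset.mem_insert_self _ _) hh.symm⟩
        rw [t1] at s1
        rw [t2] at s2
        by_cases hσ : T G col (n + 1) (some q.1) e.1 = σ
        · rw [if_pos ⟨⟨he1, hS1⟩, hσ⟩] at s1
          rw [if_pos ⟨⟨he2, hS2⟩, hT.symm.trans hσ⟩] at s2
          omega
        · rw [if_neg (fun hh => hσ hh.2)] at s1
          rw [if_neg (fun hh => hσ (hT.trans hh.2))] at s2
          omega
      · -- the other old pairs
        apply cnt_down
        intro σ
        have h3 := h.side q hq σ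
        have t1 : cnt (fun c => (G.Adj q.1 c ∧ ∀ r ∈ S, r.1 ≠ c) ∧ T G col (n + 1) (some q.1) c = σ) =
            cnt (fun c => (G.Adj q.1 c ∧ ∀ r ∈ insert e S, r.1 ≠ c) ∧ T G col (n + 1) (some q.1) c = σ) := by
          apply cnt_congr
          intro c
          constructor
          · rintro ⟨⟨a1, a2⟩, a3⟩
            refine ⟨⟨a1, ?_⟩, a3⟩
            intro r hr
            rw [Finset.mem_insert] at hr
            rcases hr with rfl | hr
            · intro hh
              exact hqp (ho1 q hq (by rw [hh]; exact a1))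
            · exact a2 r hr
          · rintro ⟨⟨a1, a2⟩, a3⟩
            exact ⟨⟨a1, fun r hr => a2 r (Finset.mem_insert_of_mem hr)⟩, a3⟩
        have t2 : cnt (fun c => (G.Adj q.2 c ∧ ∀ r ∈ S, r.2 ≠ c) ∧ T G col (n + 1) (some q.2) c = σ) =
            cnt (fun c => (G.Adj q.2 c ∧ ∀ r ∈ insert e S, r.2 ≠ c) ∧ T G col (n + 1) (some q.2) c = σ) := by
          apply cnt_congr
          intro c
          constructor
          · rintro ⟨⟨a1, a2⟩, a3⟩
            refine ⟨⟨a1, ?_⟩, a3⟩
            intro r hr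
            rw [Finset.mem_insert] at hr
            rcases hr with rfl | hr
            · intro hh
              exact hqp (ho2 q hq (by rw [hh]; exact a1))
            · exact a2 r hr
          · rintro ⟨⟨a1, a2⟩, a3⟩
            exact ⟨⟨a1, fun r hr => a2 r (Finset.mem_insert_of_mem hr)⟩, a3⟩
        rw [← t1, ← t2]
        omega

/-- Adding a far pair with the same vertex type. -/
theorem Good.far {n ρ : ℕ} {S : Finset (V × V)} (h : Good G col n ρ S) (hρ : 1 ≤ ρ)
    {e : V × V} (hS1 : ∀ q ∈ S, ¬ D G ρ q.1 e.1) (hS2 : ∀ q ∈ S, ¬ D G ρ q.2 e.2)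
    (hT : T G col (n + 1) none e.1 = T G col (n + 1) none e.2) :
    Good G col n ρ (insert e S) := by
  have ho1 : ∀ q ∈ S, ¬ G.Adj q.1 e.1 := fun q hq hqe =>
    hS1 q hq ((D.of_adj hqe).mono hρ)
  have ho2 : ∀ q ∈ S, ¬ G.Adj q.2 e.2 := fun q hq hqe =>
    hS2 q hq ((D.of_adj hqe).mono hρ)
  have hn1 : ∀ q ∈ S, q.1 ≠ e.1 := fun q hq hqe => hS1 q hq (by rw [hqe]; exact D.refl _ _ _)
  have hn2 : ∀ q ∈ S, q.2 ≠ e.2 := fun q hq hqe => hS2 q hq (by rw [hqe]; exact D.refl _ _ _)
  refine ⟨?_, ?_, ?_, ?_⟩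
  · exact h.s1.insert le_rfl hn1 (fun q _ => Iff.rfl) (fun q hq _ => hS1 q hq)
  · exact h.s2.insert le_rfl hn2 (fun q hq => ⟨fun hh => absurd hh (ho1 q hq),
      fun hh => absurd hh (ho2 q hq)⟩) (fun q hq _ => hS2 q hq)
  · intro q hq
    rw [Finset.mem_insert] at hq
    rcases hq with rfl | hq
    · exact T_col G col hT
    · exact h.hcol q hq
  · intro q hq τ
    rw [Finset.mem_insert] at hq
    rcases hq with rfl | hq
    · have h2 := ((T_succ_iff G col).1 hT).2 τ
      have e1 : cnt (fun c => (G.Adj q.1 c ∧ ∀ r ∈ insert q S, r.1 ≠ c) ∧ T G col n (some q.1) c = τ) =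
          cnt (fun c => G.Adj q.1 c ∧ some c ≠ none ∧ T G col n (some q.1) c = τ) := by
        apply cnt_congr
        intro c
        constructor
        · rintro ⟨⟨a1, a2⟩, a3⟩
          exact ⟨a1, by simp, a3⟩
        · rintro ⟨a1, a2, a3⟩
          refine ⟨⟨a1, ?_⟩, a3⟩
          intro r hr hrc
          rw [Finset.mem_insert] at hr
          rcases hr with rfl | hr
          · subst hrc
            exact G.irrefl a1
          · exact ho1 r hr (by rw [hrc]; exact a1.symm)
      have e2 : cnt (fun c => (G.Adj q.2 c ∧ ∀ r ∈ insert q S, r.2 ≠ c) ∧ T G col n (some q.2) c = τ) =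
          cnt (fun c => G.Adj q.2 c ∧ some c ≠ none ∧ T G col n (some q.2) c = τ) := by
        apply cnt_congr
        intro c
        constructor
        · rintro ⟨⟨a1, a2⟩, a3⟩
          exact ⟨a1, by simp, a3⟩
        · rintro ⟨a1, a2, a3⟩
          refine ⟨⟨a1, ?_⟩, a3⟩
          intro r hr hrc
          rw [Finset.mem_insert] at hr
          rcases hr with rfl | hr
          · subst hrc
            exact G.irrefl a1
          · exact ho2 r hr (by rw [hrc]; exact a1.symm)
      rw [e1, e2]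
      omega
    · have h3 := h.side q hq τ
      have t1 : cnt (fun c => (G.Adj q.1 c ∧ ∀ r ∈ S, r.1 ≠ c) ∧ T G col n (some q.1) c = τ) =
          cnt (fun c => (G.Adj q.1 c ∧ ∀ r ∈ insert e S, r.1 ≠ c) ∧ T G col n (some q.1) c = τ) := by
        apply cnt_congr
        intro c
        constructor
        · rintro ⟨⟨a1, a2⟩, a3⟩
          refine ⟨⟨a1, ?_⟩, a3⟩
          intro r hr
          rw [Finset.mem_insert] at hr
          rcases hr with rfl | hr
          · intro hh
            exact ho1 q hq (by rw [hh]; exact a1)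
          · exact a2 r hr
        · rintro ⟨⟨a1, a2⟩, a3⟩
          exact ⟨⟨a1, fun r hr => a2 r (Finset.mem_insert_of_mem hr)⟩, a3⟩
      have t2 : cnt (fun c => (G.Adj q.2 c ∧ ∀ r ∈ S, r.2 ≠ c) ∧ T G col n (some q.2) c = τ) =
          cnt (fun c => (G.Adj q.2 c ∧ ∀ r ∈ insert e S, r.2 ≠ c) ∧ T G col n (some q.2) c = τ) := by
        apply cnt_congr
        intro c
        constructor
        · rintro ⟨⟨a1, a2⟩, a3⟩
          refine ⟨⟨a1, ?_⟩, a3⟩
          intro r hr
          rw [Finset.mem_insert] at hr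
          rcases hr with rfl | hr
          · intro hh
            exact ho2 q hq (by rw [hh]; exact a1)
          · exact a2 r hr
        · rintro ⟨⟨a1, a2⟩, a3⟩
          exact ⟨⟨a1, fun r hr => a2 r (Finset.mem_insert_of_mem hr)⟩, a3⟩
      rw [← t1, ← t2]
      exact h3

end Pool.Agent.EPT27
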