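import Pool.Agent.EPT27.Girth

/-! Tree types: depth = truncation threshold. -/

namespace Pool.Agent.EPT27

open SimpleGraph Classical

/-- Number of elements satisfying a predicate. -/
noncomputable def cnt {V : Type*} [Fintype V] (p : V → Prop) : ℕ := (Finset.univ.filter p).card

theorem cnt_congr {V : Type*} [Fintype V] {p q : V → Prop} (h : ∀ v, p v ↔ q v) : cnt p = cnt q := by
  unfold cnt
  congr 1
  ext v
  simp [h]

theorem cnt_pos {V : Type*} [Fintype V] {p : V → Prop} : 0 < cnt p ↔ ∃ v, p v := by
  unfold cnt
  rw [Finset.card_pos]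
  constructor
  · rintro ⟨v, hv⟩
    exact ⟨v, (Finset.mem_filter.1 hv).2⟩
  · rintro ⟨v, hv⟩
    exact ⟨v, Finset.mem_filter.2 ⟨Finset.mem_univ _, hv⟩⟩

theorem cnt_mono {V : Type*} [Fintype V] {p q : V → Prop} (h : ∀ v, p v → q v) : cnt p ≤ cnt q := by
  unfold cnt
  apply Finset.card_le_card
  intro v hv
  simp at hv ⊢
  exact h v hv

/-- Splitting a count along a function. -/
theorem cnt_fiber {V B : Type*} [Fintype V] [Fintype B] (p : V → Prop) (f : V → B) :
    cnt p = ∑ b, cnt (fun v => p v ∧ f v = b) := by
  unfold cnt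
  rw [Finset.card_eq_sum_card_fiberwise (f := f) (t := Finset.univ) (by simp)]
  apply Finset.sum_congr rfl
  intro b _
  congr 1
  ext v
  simp

theorem cnt_split {V : Type*} [Fintype V] (p q : V → Prop) :
    cnt p = cnt (fun v => p v ∧ q v) + cnt (fun v => p v ∧ ¬ q v) := by
  unfold cnt
  rw [← Finset.card_filter_add_card_filter_not (s := Finset.univ.filter p) (p := q)]
  rw [Finset.filter_filter, Finset.filter_filter]
  congr!

/-- Truncated sums only depend on the truncated summands. -/
theorem min_sum_congr {B : Type*} (s : Finset B) (N : ℕ) (a b : B → ℕ)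
    (h : ∀ x ∈ s, min N (a x) = min N (b x)) : min N (∑ x ∈ s, a x) = min N (∑ x ∈ s, b x) := by
  induction s using Finset.induction_on with
  | empty => simp
  | insert x s hx ih =>
    rw [Finset.sum_insert hx, Finset.sum_insert hx]
    have h1 := h x (Finset.mem_insert_self _ _)
    have h2 := ih (fun y hy => h y (Finset.mem_insert_of_mem hy))
    omega

theorem min_sum_min {B : Type*} (s : Finset B) (N : ℕ) (a : B → ℕ) :
    min N (∑ x ∈ s, min N (a x)) = min N (∑ x ∈ s, a x) := by
  apply min_sum_congr
  intro x _
  omega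

/-- Tree types over the colour set `C`. -/
def TT (C : Type) : ℕ → Type
  | 0 => C
  | n + 1 => C × (TT C n → Fin (n + 2))

noncomputable instance instFintypeTT (C : Type) [Fintype C] : ∀ n, Fintype (TT C n)
  | 0 => (inferInstance : Fintype C)
  | n + 1 =>
    haveI := instFintypeTT C n
    (inferInstance : Fintype (C × (TT C n → Fin (n + 2))))

variable {V : Type*} [Fintype V] {C : Type} [Fintype C]

/-- The type of the branch at `v` away from the parent `par`. -/
noncomputable def T (G : SimpleGraph V) (col : V → C) : (n : ℕ) → Option V → V → TT C n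
  | 0, _, v => col v
  | n + 1, par, v =>
    (col v, fun τ => ⟨min (n + 1) (cnt fun c => G.Adj v c ∧ some c ≠ par ∧ T G col n (some v) c = τ),
      by omega⟩)

/-- The projection of a type to the previous level. -/
noncomputable def proj : (n : ℕ) → TT C (n + 1) → TT C n
  | 0, x => x.1
  | n + 1, x => (x.1, fun σ => ⟨min (n + 1) (∑ τ ∈ Finset.univ.filter (fun τ : TT C (n + 1) => proj n τ = σ),
      ((x.2 τ : Fin (n + 3)) : ℕ)), by omega⟩)

variable (G : SimpleGraph V) (col : V → C)

theorem proj_T (n : ℕ) : ∀ (par : Option V) (v : V), proj n (T G col (n + 1) par v) = T G col n par v := by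
  induction n with
  | zero => intro par v; rfl
  | succ n ih =>
    intro par v
    show (_, _) = (_, _)
    apply Prod.ext
    · rfl
    · funext σ
      apply Fin.ext
      show min (n + 1) (∑ τ ∈ Finset.univ.filter (fun τ : TT C (n + 1) => proj n τ = σ),
        min (n + 2) (cnt fun c => G.Adj v c ∧ some c ≠ par ∧ T G col (n + 1) (some v) c = τ)) =
        min (n + 1) (cnt fun c => G.Adj v c ∧ some c ≠ par ∧ T G col n (some v) c = σ)
      rw [min_sum_congr (b := fun τ => cnt fun c => G.Adj v c ∧ some c ≠ par ∧ T G col (n + 1) (some v) c = τ)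
        _ _ _ (fun x _ => by omega)]
      congr 1
      rw [cnt_fiber (fun c => G.Adj v c ∧ some c ≠ par ∧ T G col n (some v) c = σ)
        (fun c => T G col (n + 1) (some v) c)]
      rw [Finset.sum_filter]
      apply Finset.sum_congr rfl
      intro τ _
      by_cases hτ : proj n τ = σ
      · rw [if_pos hτ]
        apply cnt_congr
        intro c
        constructor
        · rintro ⟨h1, h2, h3⟩
          refine ⟨⟨h1, h2, ?_⟩, h3⟩
          rw [← ih, h3, hτ]
        · rintro ⟨⟨h1, h2, _⟩, h3⟩
          exact ⟨h1, h2, h3⟩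
      · rw [if_neg hτ]
        symm
        by_contra hne
        obtain ⟨c, ⟨_, _, h3⟩, h4⟩ := cnt_pos.1 (Nat.pos_of_ne_zero hne)
        apply hτ
        rw [← h4, ih, h3]

theorem T_eq_of_succ {n : ℕ} {par par' : Option V} {v v' : V}
    (h : T G col (n + 1) par v = T G col (n + 1) par' v') : T G col n par v = T G col n par' v' := by
  rw [← proj_T, h, proj_T]

theorem T_eq_of_le {n m : ℕ} (hnm : n ≤ m) {par par' : Option V} {v v' : V}
    (h : T G col m par v = T G col m par' v') : T G col n par v = T G col n par' v' := by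
  induction m, hnm using Nat.le_induction with
  | base => exact h
  | succ m _ ih => exact ih (T_eq_of_succ G col h)

theorem T_col {n : ℕ} {par par' : Option V} {v v' : V}
    (h : T G col n par v = T G col n par' v') : col v = col v' :=
  T_eq_of_le G col (Nat.zero_le n) (par := par) (par' := par') h

omit [Fintype C] in
theorem T_succ_iff {n : ℕ} {par par' : Option V} {v v' : V} :
    T G col (n + 1) par v = T G col (n + 1) par' v' ↔ col v = col v' ∧
      ∀ τ : TT C n, min (n + 1) (cnt fun c => G.Adj v c ∧ some c ≠ par ∧ T G col n (some v) c = τ) =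
        min (n + 1) (cnt fun c => G.Adj v' c ∧ some c ≠ par' ∧ T G col n (some v') c = τ) := by
  constructor
  · intro h
    have h' : ((_, _) : C × (TT C n → Fin (n + 2))) = (_, _) := h
    rw [Prod.mk.injEq] at h'
    refine ⟨h'.1, fun τ => ?_⟩
    have := congrFun h'.2 τ
    exact congrArg Fin.val this
  · rintro ⟨h1, h2⟩
    show ((_, _) : C × (TT C n → Fin (n + 2))) = (_, _)
    rw [Prod.mk.injEq]
    refine ⟨h1, ?_⟩
    funext τ
    exact Fin.ext (h2 τ)

end Pool.Agent.EPT27
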